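import Mathlib

namespace Pool.Agent.Lib.MP_0cffd2_co

open Finset

theorem sum_finset_split {ι : Type*} [Fintype ι] [DecidableEq ι] (s : Finset ι)
    (G : ℕ → ℕ → ℤ) :
    ∑ u : Finset ι, G (u ∩ s).card (u \ s).card =
      ∑ a ∈ range (s.card + 1), ∑ b ∈ range (Fintype.card ι - s.card + 1),
        (s.card.choose a : ℤ) * ((Fintype.card ι - s.card).choose b : ℤ) * G a b := by
  have h1 : ∑ u : Finset ι, G (u ∩ s).card (u \ s).card =
      ∑ p ∈ s.powerset ×ˢ sᶜ.powerset, G p.1.card p.2.card := by
    refine Finset.sum_bij' (fun u _ => (u ∩ s, u \ s)) (fun p _ => p.1 ∪ p.2) ?_ ?_ ?_ ?_ ?_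
    · intro u _
      simp only [mem_product, mem_powerset]
      exact ⟨inter_subset_right, fun i hi => by simp at hi ⊢; exact hi.2⟩
    · intro p _; exact mem_univ _
    · intro u _; ext i; simp; tauto
    · intro p hp
      simp only [mem_product, mem_powerset] at hp
      obtain ⟨h1, h2⟩ := hp
      refine Prod.ext ?_ ?_
      · ext i
        have := @h1 i
        have := @h2 i
        simp at *; tauto
      · ext i
        have := @h1 i
        have := @h2 i
        simp at *; tauto
    · intro u _; rfl
  rw [h1, Finset.sum_product]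
  simp only
  rw [Finset.sum_powerset_apply_card (fun a => ∑ y ∈ sᶜ.powerset, G a y.card)]
  refine Finset.sum_congr rfl fun a _ => ?_
  rw [Finset.sum_powerset_apply_card (fun b => G a b), card_compl, Finset.smul_sum]
  refine Finset.sum_congr rfl fun b _ => ?_
  simp only [nsmul_eq_mul]; ring

/-- Fast binomial coefficient. -/
def ch (n k : ℕ) : ℕ := n.descFactorial k / k.factorial

/-- The sum of `F (d(v,x)) (d(v,y))` over all `v`, as a function of `d(x,y)`. -/
def conv (F : ℕ → ℕ → ℤ) (d : ℕ) : ℤ :=
  ∑ a ∈ range (d + 1), ∑ b ∈ range (20 - d + 1),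
    (ch d a : ℤ) * (ch (20 - d) b : ℤ) * F (a + b) (d - a + b)

theorem sum_conv (F : ℕ → ℕ → ℤ) (x y : Fin 20 → Bool) :
    ∑ v : Fin 20 → Bool, F (hammingDist v x) (hammingDist v y) = conv F (hammingDist x y) := by
  set s : Finset (Fin 20) := univ.filter fun i => x i ≠ y i with hs
  have hd : hammingDist x y = s.card := rfl
  have h := sum_finset_split s (fun a b => F (a + b) (s.card - a + b))
  rw [Fintype.card_fin] at h
  rw [hd, conv]
  simp only [ch, ← Nat.choose_eq_descFactorial_div_factorial]
  rw [← h]
  refine Finset.sum_bij' (fun v _ => univ.filter fun i => v i ≠ x i)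
    (fun u _ => fun i => if i ∈ u then !x i else x i) ?_ ?_ ?_ ?_ ?_
  · intro v _; exact mem_univ _
  · intro u _; exact mem_univ _
  · intro v _
    funext i
    simp only [mem_filter, mem_univ, true_and]
    cases v i <;> cases x i <;> simp
  · intro u _
    ext i
    simp only [mem_filter, mem_univ, true_and]
    by_cases hi : i ∈ u <;> simp [hi]
  · intro v _
    set u : Finset (Fin 20) := univ.filter fun i => v i ≠ x i with hu
    have h1 : hammingDist v x = u.card := rfl
    have h2 : (u ∩ s).card + (u \ s).card = u.card := card_inter_add_card_sdiff u s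
    have h3 : hammingDist v y = (s \ u).card + (u \ s).card := by
      rw [← card_union_of_disjoint disjoint_sdiff_sdiff]
      unfold hammingDist
      congr 1
      ext i
      simp only [hs, hu, mem_filter, mem_univ, true_and, mem_union, mem_sdiff]
      cases v i <;> cases x i <;> cases y i <;> simp
    have h4 : (s ∩ u).card + (s \ u).card = s.card := card_inter_add_card_sdiff s u
    rw [inter_comm] at h4
    rw [h1, h3, h2]
    congr 1
    omega

end Pool.Agent.Lib.MP_0cffd2_co
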