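import Pool.Agent.Lib.MP_0cffd2_co.Conv

namespace Pool.Agent.Lib.MP_0cffd2_co

open Finset

def tA (i : ℕ) : ℤ := [7315, 2755, 2755, 643, 643, -45, -45, -77, -77, 35, 35, 35, 35, -77, -77,
  -45, -45, 643, 643, 2755, 2755].getD i 0

def tB (i : ℕ) : ℤ := [74613, 12597, 12597, -459, -459, -395, -395, 245, 245, -75, -75, -75, -75,
  245, 245, -395, -395, -459, -459, 12597, 12597].getD i 0

def tw (i : ℕ) : ℤ := [0, 1, 1, 0, 0, 0, 0, 0, 0, 0, 0, 0, 0, 0, 0, 0, 0, 1, 1, 6, 6].getD i 0

def te (i : ℕ) : ℤ := if 19 ≤ i then 1 else 0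

def tl (i : ℕ) : ℤ := if i ≤ 2 then 1 else 0

def mu : ℤ := 4032 * 2 ^ 20

def nu : ℤ := 262144 * 2 ^ 20

def FF (i j : ℕ) : ℤ := mu * (tw i * tw j) - nu * (te i * tl j) + 420 * (tA i * tA j) +
  147 * (tB i * tB j)

def FL (i : ℕ) (_ : ℕ) : ℤ := -13 * mu * tw i + nu * te i

theorem conv_zero : conv FF 0 = 24429600964608 := by decide +kernel

theorem conv_lin : conv FL 0 = -85794521874432 := by decide +kernel

theorem conv_le : ∀ d ∈ range 21, 5 ≤ d → conv FF d ≤ 3675 * 2 ^ 20 := by decide +kernel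

theorem no_code_4079 (C : Finset (Fin 20 → Bool)) (hc : C.card = 4079)
    (hd : ∀ x ∈ C, ∀ y ∈ C, x ≠ y → 5 ≤ hammingDist x y) : False := by
  have hpt : ∀ v : Fin 20 → Bool, 0 ≤
      ∑ x ∈ C, ∑ y ∈ C, FF (hammingDist v x) (hammingDist v y) +
        ∑ x ∈ C, FL (hammingDist v x) (hammingDist v x) + 42 * mu := by
    intro v
    set ψ := ∑ x ∈ C, tw (hammingDist v x) with hψ
    set e := ∑ x ∈ C, te (hammingDist v x) with he
    set l := ∑ x ∈ C, tl (hammingDist v x) with hl
    set A := ∑ x ∈ C, tA (hammingDist v x) with hA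
    set B := ∑ x ∈ C, tB (hammingDist v x) with hB
    have h1 : ∑ x ∈ C, ∑ y ∈ C, FF (hammingDist v x) (hammingDist v y) =
        mu * (ψ * ψ) - nu * (e * l) + 420 * (A * A) + 147 * (B * B) := by
      rw [hψ, he, hl, hA, hB, sum_mul_sum, sum_mul_sum, sum_mul_sum, sum_mul_sum]
      simp only [FF, mul_sum, sum_add_distrib, sum_sub_distrib]
    have h2 : ∑ x ∈ C, FL (hammingDist v x) (hammingDist v x) = -13 * mu * ψ + nu * e := by
      simp only [FL, hψ, he, mul_sum, sum_add_distrib]
    have he0 : 0 ≤ e := sum_nonneg fun x _ => by unfold te; split_ifs <;> norm_num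
    have hl1 : l ≤ 1 := by
      have : l = ((C.filter fun x => hammingDist v x ≤ 2).card : ℤ) := by
        rw [hl, card_filter]; push_cast; rfl
      rw [this]
      have : (C.filter fun x => hammingDist v x ≤ 2).card ≤ 1 := by
        rw [card_le_one]
        intro x hx y hy
        rw [mem_filter] at hx hy
        by_contra hne
        have h3 := hd x hx.1 y hy.1 hne
        have h4 := hammingDist_triangle_left x y v
        omega
      exact_mod_cast this
    have h5 : 0 ≤ (ψ - 6) * (ψ - 7) := by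
      rcases le_or_gt ψ 6 with h | h
      · exact mul_nonneg_of_nonpos_of_nonpos (by omega) (by omega)
      · exact mul_nonneg (by omega) (by omega)
    have h6 : 0 ≤ e * (1 - l) := mul_nonneg he0 (by omega)
    rw [h1, h2]
    unfold mu nu
    nlinarith [mul_self_nonneg A, mul_self_nonneg B]
  have hsum := Finset.sum_nonneg (s := (univ : Finset (Fin 20 → Bool))) fun v _ => hpt v
  rw [sum_add_distrib, sum_add_distrib, sum_comm, sum_comm (s := univ) (t := C)] at hsum
  simp only [sum_comm (s := univ) (t := C), sum_conv, hammingDist_self, sum_const, card_univ,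
    Fintype.card_fun, Fintype.card_bool, Fintype.card_fin, conv_lin, hc] at hsum
  have hrow : ∀ x ∈ C, ∑ y ∈ C, conv FF (hammingDist x y) ≤
      24429600964608 + 4078 * (3675 * 2 ^ 20) := by
    intro x hx
    rw [← add_sum_erase C _ hx, hammingDist_self, conv_zero]
    have : ∑ y ∈ C.erase x, conv FF (hammingDist x y) ≤ (C.erase x).card • (3675 * 2 ^ 20 : ℤ) := by
      refine sum_le_card_nsmul _ _ _ fun y hy => ?_
      rw [mem_erase] at hy
      refine conv_le _ ?_ (hd x hx y hy.2 (Ne.symm hy.1))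
      have := @hammingDist_le_card_fintype (Fin 20) (fun _ => Bool) _ _ x y
      rw [Fintype.card_fin] at this
      exact mem_range.2 (by omega)
    rw [card_erase_of_mem hx, hc] at this
    simp only [nsmul_eq_mul] at this
    push_cast at this
    linarith
  have htot := sum_le_card_nsmul C _ _ hrow
  rw [hc] at htot
  simp only [nsmul_eq_mul, mu] at htot hsum
  push_cast at htot hsum
  linarith

theorem card_le_4078 (C : Finset (Fin 20 → Bool))
    (hd : ∀ x ∈ C, ∀ y ∈ C, x ≠ y → 5 ≤ hammingDist x y) : C.card ≤ 4078 := by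
  by_contra h
  obtain ⟨D, hD, hc⟩ := Finset.exists_subset_card_eq (s := C) (n := 4079) (by omega)
  exact no_code_4079 D hc fun x hx y hy => hd x (hD hx) y (hD hy)

end Pool.Agent.Lib.MP_0cffd2_co
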